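import Pool.Agent.H44.DV.Targets

set_option autoImplicit false

namespace Pool.Agent.H89.DV

open Pool.Agent.H44.DU

variable {n : ℕ}

lemma inJ_open {S : Surf n} {t : ℝ} {r : Side n} {x : ℝ} (h : S.InJ t r x) :
    ∃ ε > (0 : ℝ), ∀ x', |x' - x| < ε → S.InJ t r x' := by
  refine ⟨min (x - xi t (S.Q r)) (xi t (S.P r) - x), lt_min (by linarith [h.1])
    (by linarith [h.2]), fun x' hx' => ?_⟩
  rw [lt_min_iff, abs_lt, abs_lt] at hx'
  exact ⟨by linarith [hx'.1.1], by linarith [hx'.2.2]⟩

theorem pf_GF (h : D_AT) : D_GF := by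
  intro n S t c₀ hgd hc0 hgain hnw V hV hop hper y hy hy0 σ δ hσ hδ hgap
  -- no state of the leaf is in `V`
  have hyV : ∀ k, y k ∉ V := by
    intro k
    induction k with
    | zero => exact hy0
    | succ k ih => exact fun hk => ih ((hV _ _ (hy k)).2 hk)
  have hinj : ∀ j k, j < k → y j ≠ y k := by
    intro j k hjk he
    apply hyV j
    apply hper
    refine ⟨k - j, fun i => y (j + i), ⟨by omega, fun i _ => ?_, ?_⟩, rfl⟩
    · simpa only [add_assoc] using hy (j + i)
    · have e1 : j + (k - j) = k := by omega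
      simp only [e1, add_zero]
      exact he.symm
  have hσ2 : σ * σ = 1 := by rcases hσ with h | h <;> rw [h] <;> norm_num
  have habs : ∀ z : ℝ, 0 < σ * z → |z| = σ * z := by
    intro z hz
    rcases hσ with h | h
    · rw [h, one_mul] at hz ⊢; exact abs_of_pos hz
    · rw [h] at hz ⊢
      rw [abs_of_neg (by linarith)]; ring
  -- gaps propagate
  have hprop : ∀ k, ∃ δ' > (0 : ℝ), ∀ x, 0 < σ * (x - (y k).2) → σ * (x - (y k).2) < δ' →
      ((y k).1, x) ∈ V := by
    intro k
    induction k with
    | zero => exact ⟨δ, hδ, hgap⟩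
    | succ k ih =>
      obtain ⟨δ', hδ', hg⟩ := ih
      obtain ⟨ε1, hε1, ho1⟩ := inJ_open (hy k).1
      obtain ⟨ε2, hε2, ho2⟩ := inJ_open (hy k).2.1
      have ha := S.a_pos (y k).1
      refine ⟨min (S.a (y k).1 * min δ' ε1) ε2, lt_min (mul_pos ha (lt_min hδ' hε1)) hε2,
        fun x' h1 h2 => ?_⟩
      rw [lt_min_iff] at h2
      set x := (y k).2 + (x' - (y (k + 1)).2) / S.a (y k).1 with hx
      have hmv : S.mv t (y k).1 x = x' := by
        have e1 : (y (k + 1)).2 = S.mv t (y k).1 (y k).2 := (hy k).2.2.2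
        have e2 : S.mv t (y k).1 x = S.mv t (y k).1 (y k).2 + S.a (y k).1 * (x - (y k).2) := by
          simp only [Surf.mv]; ring
        rw [e2, ← e1, hx]
        field_simp
        ring
      have hxe : x - (y k).2 = (x' - (y (k + 1)).2) / S.a (y k).1 := by rw [hx]; ring
      have h3 : σ * (x - (y k).2) = σ * (x' - (y (k + 1)).2) / S.a (y k).1 := by
        rw [hxe]; ring
      have h4 : 0 < σ * (x - (y k).2) := by rw [h3]; exact div_pos h1 ha
      have h5 : σ * (x - (y k).2) < min δ' ε1 := by
        rw [h3, div_lt_iff₀ ha, mul_comm (min δ' ε1)]; exact h2.1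
      rw [lt_min_iff] at h5
      have h6 : ((y k).1, x) ∈ V := hg x h4 h5.1
      refine (hV ((y k).1, x) ((y (k + 1)).1, x') ⟨?_, ?_, (hy k).2.2.1, hmv.symm⟩).1 h6
      · exact ho1 x (by rw [habs _ h4]; exact h5.2)
      · exact ho2 x' (by rw [habs _ h1]; exact h2.2)
  -- the cut indices
  let Cut : ℕ → Prop := fun k => ∃ d, 0 < σ * (d - (y k).2) ∧ S.InJ t (y k).1 d ∧
    S.mv t (y k).1 d = xi t (S.O (S.gl (y k).1)) ∧
    ∀ x, 0 < σ * (x - (y k).2) → 0 ≤ σ * (d - x) → ((y k).1, x) ∈ V
  have hcut : ∀ k k', k ≠ k' → Cut k → Cut k' → (y k).1 ≠ (y k').1 := by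
    have main : ∀ k k', Cut k → Cut k' → (y k).1 = (y k').1 →
        0 < σ * ((y k').2 - (y k).2) → False := by
      intro k k' hk hk' he hlt
      obtain ⟨d, a1, a2, a3, a4⟩ := hk
      obtain ⟨d', b1, b2, b3, b4⟩ := hk'
      have hd : d = d' := by
        apply S.mv_inj t (y k).1
        rw [a3, he, b3]
      subst hd
      have h1 := a4 (y k').2 hlt b1.le
      rw [he] at h1
      exact hyV k' h1
    intro k k' hne hk hk' he
    have hne2 : (y k').2 - (y k).2 ≠ 0 := by
      intro h0
      have h1 : y k = y k' := Prod.ext he (by linarith)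
      rcases Nat.lt_or_gt_of_ne hne with h2 | h2
      · exact hinj k k' h2 h1
      · exact hinj k' k h2 h1.symm
    have hne3 : σ * ((y k').2 - (y k).2) ≠ 0 := by
      apply mul_ne_zero _ hne2
      rcases hσ with h | h <;> rw [h] <;> norm_num
    rcases lt_or_gt_of_ne hne3 with h3 | h3
    · exact main k' k hk' hk he.symm (by linarith)
    · exact main k k' hk hk' he h3
  have hfin : {k | Cut k}.Finite := by
    apply Set.Finite.of_injOn (f := fun k => (y k).1) (t := Set.univ) (fun _ _ => Set.mem_univ _)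
    · intro k hk k' hk' he
      by_contra hne
      exact hcut k k' hne hk hk' he
    · exact Set.finite_univ
  obtain ⟨k0, hk0⟩ : ∃ k0, ∀ k, k0 ≤ k → ¬ Cut k := by
    obtain ⟨b, hb⟩ := hfin.bddAbove
    refine ⟨b + 1, fun k hk hc => ?_⟩
    have := hb hc
    omega
  -- the gap after `k0`
  obtain ⟨δ1, hδ1, hg1⟩ := hprop k0
  obtain ⟨ε1, hε1, ho1⟩ := inJ_open (hy k0).1
  set δ0 := min δ1 ε1 with hδ0
  have hδ0p : 0 < δ0 := lt_min hδ1 hε1
  let Pk : ℕ → ℝ := fun k => ∏ i ∈ Finset.range k, S.a (y (k0 + i)).1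
  have hPk : ∀ k, 0 < Pk k := fun k => Finset.prod_pos fun i _ => S.a_pos _
  have hC : ∀ k x, 0 < σ * (x - (y (k0 + k)).2) → σ * (x - (y (k0 + k)).2) < δ0 * Pk k →
      ((y (k0 + k)).1, x) ∈ V ∧ S.InJ t (y (k0 + k)).1 x := by
    intro k
    induction k with
    | zero =>
      intro x h1 h2
      have hP0 : Pk 0 = 1 := Finset.prod_range_zero _
      rw [hP0, mul_one] at h2
      rw [add_zero] at h1 h2 ⊢
      exact ⟨hg1 x h1 (h2.trans_le (min_le_left _ _)),
        ho1 x (by rw [habs _ h1]; exact h2.trans_le (min_le_right _ _))⟩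
    | succ k ih =>
      intro x' h1 h2
      have hPs : Pk (k + 1) = Pk k * S.a (y (k0 + k)).1 := Finset.prod_range_succ _ _
      have hyk := hy (k0 + k)
      have hidx : k0 + (k + 1) = k0 + k + 1 := by ring
      rw [hidx] at h1 h2 ⊢
      rw [hPs] at h2
      set r := (y (k0 + k)).1 with hr
      set e := (y (k0 + k)).2 with he
      set r' := (y (k0 + k + 1)).1 with hr'
      set e' := (y (k0 + k + 1)).2 with he'
      have ha := S.a_pos r
      have hee : e' = S.mv t r e := hyk.2.2.2
      have hlin : ∀ z, S.mv t r (e + (z - e') / S.a r) = z := by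
        intro z
        have e2 : S.mv t r (e + (z - e') / S.a r) = S.mv t r e + (z - e') := by
          simp only [Surf.mv]
          field_simp
          ring
        rw [e2, ← hee]; ring
      have hsc : ∀ z, σ * (e + (z - e') / S.a r - e) = σ * (z - e') / S.a r := by
        intro z; ring
      have hin : ∀ z, 0 < σ * (z - e') → σ * (z - e') ≤ σ * (x' - e') →
          0 < σ * (e + (z - e') / S.a r - e) ∧
          σ * (e + (z - e') / S.a r - e) < δ0 * Pk k := by
        intro z hz1 hz2
        rw [hsc]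
        refine ⟨div_pos hz1 ha, ?_⟩
        rw [div_lt_iff₀ ha]
        calc σ * (z - e') ≤ σ * (x' - e') := hz2
          _ < δ0 * (Pk k * S.a r) := h2
          _ = _ := by ring
      obtain ⟨hx1, hx2⟩ := hin x' h1 le_rfl
      obtain ⟨hxV, hxJ⟩ := ih _ hx1 hx2
      have hI' : S.InI t (S.gl r) x' := by
        have := (S.inI_gl_iff t r (e + (x' - e') / S.a r)).2 hxJ
        rwa [hlin] at this
      have hIe : S.InI t (S.gl r) e' := by
        rw [hee]
        exact (S.inI_gl_iff t r e).2 hyk.1
      -- the opposite vertex is not between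
      have hnc : ¬ (0 < σ * (xi t (S.O (S.gl r)) - e') ∧
          σ * (xi t (S.O (S.gl r)) - e') ≤ σ * (x' - e')) := by
        rintro ⟨c1, c2⟩
        apply hk0 (k0 + k) (by omega)
        obtain ⟨d1, d2⟩ := hin _ c1 c2
        refine ⟨e + (xi t (S.O (S.gl r)) - e') / S.a r, d1, (ih _ d1 d2).2, hlin _, ?_⟩
        intro x hx hxd
        refine (ih x hx ?_).1
        calc σ * (x - e) ≤ σ * (e + (xi t (S.O (S.gl r)) - e') / S.a r - e) := by linarith
          _ < _ := d2
      have hJ : S.InJ t r' e' := hyk.2.1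
      have hJ' : S.InJ t r' x' := by
        rcases side_cases (r := r') (s := S.gl r) hyk.2.2.1.symm with h3 | h3 | h3
        · rw [h3] at hJ
          exact absurd hIe (S.not_inI_of_inJ hJ)
        · rw [h3] at hJ ⊢
          have h4 : xi t (S.O (S.gl r)) < e' := by
            have := hJ.1
            rwa [S.Q_nx] at this
          apply S.exit_right hI'
          by_contra h5
          push Not at h5
          apply hnc
          rcases hσ with hs | hs
          · rw [hs] at h1
            linarith
          · rw [hs]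
            constructor <;> linarith
        · rw [h3] at hJ ⊢
          have h4 : e' < xi t (S.O (S.gl r)) := by
            have := hJ.2
            rwa [S.P_nx_nx] at this
          apply S.exit_left hI'
          by_contra h5
          push Not at h5
          apply hnc
          rcases hσ with hs | hs
          · rw [hs]
            constructor <;> linarith
          · rw [hs] at h1
            linarith
      refine ⟨(hV (r, e + (x' - e') / S.a r) (r', x') ⟨hxJ, hJ', hyk.2.2.1, (hlin x').symm⟩).1 hxV,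
        hJ'⟩
  -- the letters of all leaves of the gap
  set W : ℕ → Side n := fun k => (y (k0 + k)).1 with hW
  have hrun : ∀ k x, 0 < σ * (x - (y k0).2) → σ * (x - (y k0).2) < δ0 →
      S.Run t (wd W k) x := by
    intro k
    induction k with
    | zero =>
      intro x _ _
      exact S.run_nil t x
    | succ k ih =>
      intro x h1 h2
      have hw : wd W (k + 1) = wd W k ++ [W k] := by
        unfold wd
        rw [List.range_succ, List.map_append]
        rfl
      have c1 := S.chain_run hy k0 (k + 1)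
      have c2 := S.chain_run hy k0 k
      have hr1 : S.Run t (wd W (k + 1)) (y k0).2 := c1.1
      rw [hw, S.run_append] at hr1
      rw [hw, S.run_append]
      refine ⟨ih x h1 h2, hr1.2.1, ?_⟩
      rw [S.run_single]
      have hg : S.g t (wd W k) x - (y (k0 + k)).2 = Pk k * (x - (y k0).2) := by
        have e1 : S.g t (wd W k) (y k0).2 = (y (k0 + k)).2 := c2.2.1
        have e2 : S.A (wd W k) = Pk k := c2.2.2
        rw [← e1, ← e2]
        simp only [Surf.g]; ring
      refine (hC k _ ?_ ?_).2
      · rw [hg]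
        have : σ * (Pk k * (x - (y k0).2)) = Pk k * (σ * (x - (y k0).2)) := by ring
        rw [this]
        exact mul_pos (hPk k) h1
      · rw [hg]
        have : σ * (Pk k * (x - (y k0).2)) = (σ * (x - (y k0).2)) * Pk k := by ring
        rw [this]
        exact mul_lt_mul_of_pos_right h2 (hPk k)
  have hacc : S.TAcc t (fun k => y (k0 + k)) := by
    have hy' : ∀ k, S.Tr t (y (k0 + k)) (y (k0 + (k + 1))) := fun k => by
      have := hy (k0 + k)
      rwa [add_assoc] at this
    rcases hσ with hs | hs
    · refine h n S t c₀ hgd hc0 hgain hnw (fun k => y (k0 + k)) (y k0).2 ((y k0).2 + δ0) hy'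
        (by linarith) ?_
      intro k x hx1 hx2
      refine hrun k x ?_ ?_
      · rw [hs]; linarith
      · rw [hs]; linarith
    · refine h n S t c₀ hgd hc0 hgain hnw (fun k => y (k0 + k)) ((y k0).2 - δ0) (y k0).2 hy'
        (by linarith) ?_
      intro k x hx1 hx2
      refine hrun k x ?_ ?_
      · rw [hs]; linarith
      · rw [hs]; linarith
  obtain ⟨q, hq, hq2⟩ := hacc
  have hqV := hper q hq
  have hqJ : S.InJ t q.1 q.2 := by
    obtain ⟨m, z, hz, hz0⟩ := hq
    have := (hz.2.1 0 hz.1).1
    rwa [hz0] at this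
  obtain ⟨ε, hε, hε2⟩ := hop q.1 q.2 hqJ hqV
  obtain ⟨k, _, hk1, hk2⟩ := hq2 ε hε 0
  have := hε2 _ hk2
  rw [← hk1] at this
  exact hyV (k0 + k) this

end Pool.Agent.H89.DV
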